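import Mathlib
import Pool.Agent.Proj2.Main

set_option autoImplicit false

open Cardinal

namespace Pool.Agent.Results.MP_71be7b_lc.Count

open Pool.Agent.Proj2

/-- The isomorphism relation on the projective algebras generated by `k` plane sets. -/
def isoSetoid (k : ℕ) : Setoid (ProjAlg k) where
  r := Isomorphic
  iseqv := iso_equivalence k

/-- For every positive `k`, the number of isomorphism classes of projective algebras generated by
`k` plane sets is the cardinality of the continuum. -/
theorem result : ∀ k : ℕ, 1 ≤ k → #(Quotient (isoSetoid k)) = 𝔠 :=
  fun k hk => le_antisymm (upper k) (lower k hk)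

end Pool.Agent.Results.MP_71be7b_lc.Count
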